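import Pool.Agent.H757D.Twk
import Pool.Agent.H757D.Hec
import Pool.Agent.H757D.Mulc

/-!
# Two quadratic twists of a newform of level one whose central values are never both different from zero

The question: given a holomorphic newform `f` and a quadratic character `χ`, is there a quadratic character
`ψ` with `L(f ⊗ ψ, 1/2) L(f ⊗ χψ, 1/2) ≠ 0`? We prove that the answer is negative in general: if `f` is a
newform of level one, of any weight (for instance `Δ`, of weight `12`), and `χ` is any odd quadratic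
character, then for every quadratic character `ψ` at least one of the two central values is zero.

The reason is the sign of the functional equation: it is `i^k ψ(-1)` for `L(f ⊗ ψ, s)`, for every primitive
quadratic (or trivial) character `ψ`, since `f` is unramified at all primes, and
`i^k (χψ)(-1) = - i^k ψ(-1)`. So one of the two signs is `-1`.
(The same happens whenever all the local components of `f` at the finite primes are principal series. It does
not happen when some local component is special, for instance for semistable elliptic curves.)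

The Lean proof is complete: Mathlib's cusp forms for `SL₂(ℤ)` and its `q`-expansions, the functional
equation of the twists by primitive characters, and for the example `Δ` the Hecke relations of Ramanujan's
`τ` (Mordell), which show that `Δ` is a newform.

The modules `Pool.Agent.H757D` are the joint work of helper757 (plan, statements, assembly), helper347
(`Twk`: twists of cusp forms of level one), helper341 (`Hec`: the Hecke relations of `Δ`) and helper771
(`Mulc`: products of quadratic characters).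
-/

set_option autoImplicit false

open UpperHalfPlane ModularForm

open scoped MatrixGroups

namespace Pool.Agent.Results.MP_d17ed7_nt.LevelOneOddCharacter

/-- The `n`-th Fourier coefficient `a(n)` of a cusp form for `SL₂(ℤ)`. -/
noncomputable def coef {k : ℕ} (f : CuspForm 𝒮ℒ (k : ℤ)) (n : ℕ) : ℂ := (qExpansion 1 f).coeff n

/-- `f` is a newform of level one and weight `k`: a cusp form for `SL₂(ℤ)` with `a(1) = 1` which is an
eigenform of all the Hecke operators `T_p`, that is,
`a(p) a(n) = a(pn) + p^(k-1) a(n/p)` for all primes `p` and all `n > 0` (where `a(n/p) = 0` if `p ∤ n`). -/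
structure IsNewform (k : ℕ) (f : CuspForm 𝒮ℒ (k : ℤ)) : Prop where
  normalised : coef f 1 = 1
  hecke : ∀ p : ℕ, p.Prime → ∀ n : ℕ, 0 < n →
    coef f p * coef f n = coef f (p * n) + if p ∣ n then (p : ℂ) ^ (k - 1) * coef f (n / p) else 0

/-- A quadratic character: a primitive Dirichlet character of order exactly two (of modulus `M > 0`). -/
def IsQuad {M : ℕ} (χ : DirichletCharacter ℂ M) : Prop := 0 < M ∧ χ.IsPrimitive ∧ orderOf χ = 2

/-- The primitive character inducing the product `χψ`. -/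
noncomputable def prod {N M : ℕ} (χ : DirichletCharacter ℂ N) (ψ : DirichletCharacter ℂ M) :
    DirichletCharacter ℂ (χ.mul ψ).conductor := (χ.mul ψ).primitiveCharacter

/-- `L` is the L-function `L(f ⊗ ψ, s)` in the analytic normalisation (the functional equation relates `s`
and `1 - s`), for a primitive character `ψ`: it is entire, and for `Re s > 3/2` it is the sum of the
Dirichlet series with the terms `a(n) ψ(n) n^(-(k-1)/2) n^(-s)`. -/
def IsTwistedL {k : ℕ} (f : CuspForm 𝒮ℒ (k : ℤ)) {M : ℕ} (ψ : DirichletCharacter ℂ M) (L : ℂ → ℂ) :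
    Prop :=
  Differentiable ℂ L ∧ ∀ s : ℂ, 3 / 2 < s.re →
    HasSum (fun n : ℕ => coef f n * ψ n * (n : ℂ) ^ (-(s + ((k : ℂ) - 1) / 2))) (L s)

section proof

open Pool.Agent.H757D (S_TWK t_TWK t_HEC t_EX mc_chg)

lemma unique {k : ℕ} {f : CuspForm 𝒮ℒ (k : ℤ)} {M : ℕ} {χ : DirichletCharacter ℂ M} {L L' : ℂ → ℂ}
    (h : IsTwistedL f χ L) (h' : IsTwistedL f χ L') : L = L' := by
  have hfa : AnalyticOnNhd ℂ L Set.univ := fun z _ => h.1.analyticAt z
  have hga : AnalyticOnNhd ℂ L' Set.univ := fun z _ => h'.1.analyticAt z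
  have heq : L =ᶠ[nhds (3 : ℂ)] L' := by
    have hopen : IsOpen {s : ℂ | (3 / 2 : ℝ) < s.re} := isOpen_lt continuous_const Complex.continuous_re
    filter_upwards [hopen.mem_nhds (show (3 / 2 : ℝ) < (3 : ℂ).re by norm_num)] with s hs
    exact (h.2 s hs).unique (h'.2 s hs)
  exact hfa.eq_of_eventuallyEq hga heq

/-- the L-function of a twist, and its vanishing when the sign is `-1` -/
lemma twist {k : ℕ} (hk : 0 < k) (f : CuspForm 𝒮ℒ (k : ℤ)) {M : ℕ} (χ : DirichletCharacter ℂ M)
    (hM : 0 < M) (hχ : χ.IsPrimitive) (h2 : χ ^ 2 = 1) :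
    ∃ L : ℂ → ℂ, IsTwistedL f χ L ∧ (Complex.I ^ k * χ (-1) = -1 → L (1 / 2) = 0) := by
  obtain ⟨L, hL, hs, h0⟩ := t_TWK k hk f M χ hM hχ h2
  refine ⟨fun s => L (s + ((k : ℂ) - 1) / 2), ⟨?_, fun s hs' => ?_⟩, fun h => ?_⟩
  · exact hL.comp (differentiable_id.add_const _)
  · have e : (s + ((k : ℂ) - 1) / 2).re = s.re + ((k : ℝ) - 1) / 2 := by
      have : ((k : ℂ) - 1) / 2 = ((((k : ℝ) - 1) / 2 : ℝ) : ℂ) := by push_cast; ring
      rw [this, Complex.add_re, Complex.ofReal_re]
    exact hs _ (by rw [e]; linarith)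
  · have e : (1 / 2 : ℂ) + ((k : ℂ) - 1) / 2 = k / 2 := by ring
    simp only [e]
    exact h0 h

lemma prod_props {N M : ℕ} {χ : DirichletCharacter ℂ N} {ψ : DirichletCharacter ℂ M}
    (hχ : IsQuad χ) (hψ : IsQuad ψ) :
    0 < (χ.mul ψ).conductor ∧ (prod χ ψ).IsPrimitive ∧ prod χ ψ ^ 2 = 1 ∧
      prod χ ψ (-1) = χ (-1) * ψ (-1) := by
  obtain ⟨hN, hχp, hχo⟩ := hχ
  obtain ⟨hM, hψp, hψo⟩ := hψ
  have : NeZero (N.lcm M) := ⟨(Nat.lcm_pos hN hM).ne'⟩
  have hθd : χ.mul ψ = DirichletCharacter.changeLevel (Nat.dvd_lcm_left N M) χ *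
      DirichletCharacter.changeLevel (Nat.dvd_lcm_right N M) ψ := rfl
  have h2 : (χ.mul ψ) ^ 2 = 1 := by
    rw [hθd, mul_pow, ← map_pow, ← map_pow]
    have e1 : χ ^ 2 = 1 := by rw [← hχo]; exact pow_orderOf_eq_one χ
    have e2 : ψ ^ 2 = 1 := by rw [← hψo]; exact pow_orderOf_eq_one ψ
    rw [e1, e2, map_one, map_one, one_mul]
  have hlev : DirichletCharacter.changeLevel (χ.mul ψ).conductor_dvd_level (prod χ ψ) = χ.mul ψ :=
    DirichletCharacter.changeLevel_primitiveCharacter _
  refine ⟨Nat.pos_of_ne_zero (DirichletCharacter.conductor_ne_zero _),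
    DirichletCharacter.primitiveCharacter_isPrimitive _, ?_, ?_⟩
  · apply DirichletCharacter.changeLevel_injective (R := ℂ) (χ.mul ψ).conductor_dvd_level
    rw [map_pow, hlev, h2, map_one]
  · rw [← mc_chg (χ.mul ψ).conductor_dvd_level, hlev, hθd, MulChar.mul_apply, mc_chg, mc_chg]

lemma ne_zero {k : ℕ} {f : CuspForm 𝒮ℒ (k : ℤ)} (hf : IsNewform k f) : (f : ℍ → ℂ) ≠ 0 := by
  intro h
  have h1 := hf.normalised
  unfold coef at h1
  rw [h, qExpansion_zero] at h1
  simp at h1

/-- there is no newform of level one and odd weight -/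
lemma even_weight {k : ℕ} {f : CuspForm 𝒮ℒ (k : ℤ)} (hf : IsNewform k f) : Even k := by
  by_contra hk
  have hk' : Odd (k : ℤ) := by exact_mod_cast Nat.not_even_iff_odd.1 hk
  refine ne_zero hf ?_
  have h := ModularForm.levelOne_odd_weight_eq_zero hk' (f : ModularForm 𝒮ℒ (k : ℤ))
  exact congrArg (fun g : ModularForm 𝒮ℒ (k : ℤ) => (g : ℍ → ℂ)) h

/-- the weight of a newform of level one is at least `12` -/
lemma weight_pos {k : ℕ} {f : CuspForm 𝒮ℒ (k : ℤ)} (hf : IsNewform k f) : 0 < k := by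
  by_contra hk
  have hk' : (k : ℤ) < 12 := by omega
  refine ne_zero hf ?_
  have h := rank_zero_iff_forall_zero.1 (CuspForm.rank_eq_zero_of_weight_lt_twelve hk') f
  rw [h]
  rfl

/-- the signs: one of the two twists has the sign `-1` -/
lemma sign {k : ℕ} (hk : Even k) {a b : ℂ} (ha : a = -1) (hb : b = 1 ∨ b = -1) :
    Complex.I ^ k * b = -1 ∨ Complex.I ^ k * (a * b) = -1 := by
  obtain ⟨m, rfl⟩ := hk
  have e : Complex.I ^ (m + m) = (-1) ^ m := by
    rw [← two_mul, pow_mul, Complex.I_sq]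
  rw [e, ha]
  rcases neg_one_pow_eq_or ℂ m with h | h <;> rcases hb with h' | h' <;> rw [h, h'] <;> norm_num

lemma value {M : ℕ} {ψ : DirichletCharacter ℂ M} (hψ : IsQuad ψ) : ψ (-1) = 1 ∨ ψ (-1) = -1 := by
  have h2 : ψ ^ 2 = 1 := by rw [← hψ.2.2]; exact pow_orderOf_eq_one ψ
  have h : ψ (-1) ^ 2 = 1 := by
    rw [← MulChar.pow_apply' ψ two_ne_zero, h2, MulChar.one_apply isUnit_one.neg]
  have h' : (ψ (-1) - 1) * (ψ (-1) + 1) = 0 := by linear_combination h
  rcases mul_eq_zero.1 h' with h' | h'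
  · exact Or.inl (by linear_combination h')
  · exact Or.inr (by linear_combination h')

end proof

/-- **Main theorem.** Let `f` be a newform of level one (any weight `k`), and let `χ` be an odd quadratic
character. Then `L(f ⊗ ψ, 1/2) L(f ⊗ χψ, 1/2) = 0` for every quadratic character `ψ`. The discriminant form
`Δ` is a newform of level one, and there are odd quadratic characters. -/
theorem result :
    (∀ (k : ℕ) (f : CuspForm 𝒮ℒ (k : ℤ)), IsNewform k f →
      ∀ (N : ℕ) (χ : DirichletCharacter ℂ N), IsQuad χ → χ.Odd →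
      ∀ (M : ℕ) (ψ : DirichletCharacter ℂ M), IsQuad ψ →
        ∃ L L' : ℂ → ℂ, IsTwistedL f ψ L ∧ IsTwistedL f (prod χ ψ) L' ∧
          (∀ L₁ : ℂ → ℂ, IsTwistedL f ψ L₁ → L₁ = L) ∧
          (∀ L₁ : ℂ → ℂ, IsTwistedL f (prod χ ψ) L₁ → L₁ = L') ∧
          L (1 / 2) * L' (1 / 2) = 0) ∧
    IsNewform 12 CuspForm.discriminant ∧
    ∃ χ : DirichletCharacter ℂ 4, IsQuad χ ∧ χ.Odd := by
  refine ⟨?_, ?_, Pool.Agent.H757D.t_EX⟩
  · intro k f hf N χ hχ hodd M ψ hψ
    have hk := weight_pos hf
    obtain ⟨h1, h2, h3, h4⟩ := prod_props hχ hψ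
    have hψ2 : ψ ^ 2 = 1 := by rw [← hψ.2.2]; exact pow_orderOf_eq_one ψ
    obtain ⟨L, hL, hL0⟩ := twist hk f ψ hψ.1 hψ.2.1 hψ2
    obtain ⟨L', hL', hL0'⟩ := twist hk f (prod χ ψ) h1 h2 h3
    refine ⟨L, L', hL, hL', fun L₁ h => unique h hL, fun L₁ h => unique h hL', ?_⟩
    rw [h4] at hL0'
    rcases sign (even_weight hf) hodd (value hψ) with h | h
    · rw [hL0 h, zero_mul]
    · rw [hL0' h, mul_zero]
  · exact ⟨Pool.Agent.H757D.t_HEC.2.1, fun p hp n hn => Pool.Agent.H757D.t_HEC.2.2 p hp n hn⟩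

end Pool.Agent.Results.MP_d17ed7_nt.LevelOneOddCharacter
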